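import Pool.Agent.R83.Theta

set_option autoImplicit false

/-!
# Saturation numbers of the cycle families `C_[4, r]`

The question is whether `sat(n, C_[4, r]) = ⌈5 n / 4 - 3 / 2⌉` for every `r ≥ 5` and all large `n`.
For odd `r = 2 m - 1` the theta graph with `k` paths of length `m` between its two poles has
`k (m - 1) + 2` vertices and `k m` edges. All its cycles have length `2 m = r + 1`, and two non-adjacent
vertices lie on a common cycle, one arc of which has length between `3` and `2 m - 2 = r - 1`. So it is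
saturated, and for `m ≥ 5` it has fewer than `⌈5 n / 4 - 3 / 2⌉` edges.
-/

namespace Pool.Agent.Results.MP_50682e_co.ThetaGraphs

open Pool.Agent.R83.Theta

/-- For every odd `r = 2 m - 1 ≥ 9` and every `k ≥ 2`, with `n = k (m - 1) + 2`, the saturation number
`sat(n, C_[4, r])` is at most `k m = (r + 1) / (r - 1) * (n - 2)`, which is less than `⌈5 n / 4 - 3 / 2⌉`. In
particular the answer to the question is negative. -/
theorem result :
    (∀ m k : ℕ, 5 ≤ m → 2 ≤ k →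
      satCyc (2 * m - 1) (k * (m - 1) + 2) ≤ k * m ∧
      ((k * m : ℕ) : ℤ) < ⌈5 * ((k * (m - 1) + 2 : ℕ) : ℚ) / 4 - 3 / 2⌉) ∧
    ¬ (∀ r : ℕ, 5 ≤ r → ∃ n₀ : ℕ, ∀ n : ℕ, n₀ ≤ n →
      (satCyc r n : ℤ) = ⌈5 * (n : ℚ) / 4 - 3 / 2⌉) := by
  have h1 : ∀ m k : ℕ, 5 ≤ m → 2 ≤ k →
      satCyc (2 * m - 1) (k * (m - 1) + 2) ≤ k * m ∧
      ((k * m : ℕ) : ℤ) < ⌈5 * ((k * (m - 1) + 2 : ℕ) : ℚ) / 4 - 3 / 2⌉ := by
    intro m k hm hk
    refine ⟨satCyc_theta hk (by omega), ?_⟩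
    rw [Int.lt_ceil]
    obtain ⟨a, rfl⟩ : ∃ a, m = a + 5 := ⟨m - 5, by omega⟩
    have e : a + 5 - 1 = a + 4 := by omega
    rw [e]
    push_cast
    have hk' : (2 : ℚ) ≤ k := by exact_mod_cast hk
    have ha : (0 : ℚ) ≤ a := by positivity
    have := mul_nonneg (by linarith : (0 : ℚ) ≤ k) ha
    nlinarith
  refine ⟨h1, ?_⟩
  intro H
  obtain ⟨n₀, hn₀⟩ := H 9 (by norm_num)
  obtain ⟨h2, h3⟩ := h1 5 (n₀ + 2) le_rfl (by omega)
  have h4 := hn₀ ((n₀ + 2) * (5 - 1) + 2) (by omega)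
  have h5 : ((satCyc (2 * 5 - 1) ((n₀ + 2) * (5 - 1) + 2) : ℕ) : ℤ) ≤ (((n₀ + 2) * 5 : ℕ) : ℤ) := by
    exact_mod_cast h2
  have e : 2 * 5 - 1 = 9 := by norm_num
  rw [e] at h5
  rw [h4] at h5
  exact absurd h5 (not_le.mpr h3)

end Pool.Agent.Results.MP_50682e_co.ThetaGraphs
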